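import Mathlib

open MvPolynomial

namespace Pool.Agent.Results.MP_119ce6_al.CharP

/-- An automorphism of the free associative algebra is affine if
`x_i ↦ ∑ j, a_{ij} x_j + b_i` with `(a_{ij})` invertible. -/
def IsAffine {K : Type} [Field K] {n : ℕ}
    (φ : FreeAlgebra K (Fin n) ≃ₐ[K] FreeAlgebra K (Fin n)) : Prop :=
  ∃ (A : Matrix (Fin n) (Fin n) K) (b : Fin n → K), IsUnit A ∧
    ∀ i, φ (FreeAlgebra.ι K i) =
      ∑ j, A i j • FreeAlgebra.ι K j + algebraMap K (FreeAlgebra K (Fin n)) (b i)

section aux

variable {K : Type} [Field K] {m : ℕ}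

/-- Euler gradient. -/
noncomputable def th : MvPolynomial (Fin m) K →ₗ[K] (Fin m → MvPolynomial (Fin m) K) :=
  LinearMap.pi fun j => (LinearMap.mulLeft K (X j)) ∘ₗ (pderiv j).toLinearMap

theorem th_ap (g : MvPolynomial (Fin m) K) (j : Fin m) : th g j = X j * pderiv j g := rfl

theorem th_mul (f g : MvPolynomial (Fin m) K) : th (f * g) = f • th g + g • th f := by
  funext j
  simp only [th_ap, Pi.add_apply, Pi.smul_apply, smul_eq_mul, Derivation.leibniz]
  ring

theorem th_C (f : MvPolynomial (Fin m) K) (c : K) : th (f + C c) = th f := by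
  funext j
  simp [th_ap]

/-- Euler Jacobian. -/
noncomputable def J : MultilinearMap K (fun _ : Fin m => MvPolynomial (Fin m) K)
    (MvPolynomial (Fin m) K) :=
  ((Matrix.detRowAlternating (n := Fin m) (R := MvPolynomial (Fin m) K)).toMultilinearMap.restrictScalars
    K).compLinearMap fun _ => th

theorem J_ap (g : Fin m → MvPolynomial (Fin m) K) :
    J g = Matrix.det (Matrix.of fun i => th (g i)) := rfl

theorem J_key (g : Fin m → MvPolynomial (Fin m) K) (i k : Fin m) (hik : i ≠ k) :
    g i * J g = J (Function.update g k (g i * g k)) := by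
  rw [J_ap, J_ap]
  have h : (Matrix.of fun a => th (Function.update g k (g i * g k) a)) =
      (Matrix.of fun a => th (g a)).updateRow k (g i • th (g k) + g k • th (g i)) := by
    ext1 a b
    by_cases ha : a = k
    · subst ha; simp [th_mul]
    · simp [Matrix.updateRow_ne ha, Function.update_of_ne ha]
  rw [h, Matrix.det_updateRow_add, Matrix.det_updateRow_smul, Matrix.det_updateRow_smul]
  have h1 : (Matrix.of fun a => th (g a)).updateRow k (th (g k)) = Matrix.of fun a => th (g a) :=
    Matrix.updateRow_eq_self _ k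
  have h2 : ((Matrix.of fun a => th (g a)).updateRow k (th (g i))).det = 0 :=
    Matrix.det_updateRow_eq_zero (M := Matrix.of fun a => th (g a)) hik
  rw [h1, h2]; ring

theorem coeff_J (d : Fin m →₀ ℕ) (hd : ∀ j, (d j : K) = 0) (hm : 0 < m)
    (g : Fin m → MvPolynomial (Fin m) K) : coeff d (J g) = 0 := by
  have H : (lcoeff K d).compMultilinearMap (J (K := K) (m := m)) = 0 := by
    refine Module.Basis.ext_multilinear (fun _ => basisMonomials (Fin m) K) fun a => ?_
    simp only [LinearMap.coe_compMultilinearMap, Function.comp_apply, lcoeff_apply,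
      MultilinearMap.zero_apply, coe_basisMonomials]
    rw [J_ap]
    have h : (Matrix.of fun i => th (monomial (a i) (1 : K))) =
        Matrix.of fun i j => monomial (a i) (1 : K) *
          ((C : K →+* MvPolynomial (Fin m) K).mapMatrix (Matrix.of fun i j => (a i j : K))) i j := by
      ext1 i j
      simp only [Matrix.of_apply, th_ap, X_mul_pderiv_monomial, RingHom.mapMatrix_apply,
        Matrix.map_apply, map_natCast, nsmul_eq_mul]
      ring
    rw [h, Matrix.det_mul_column, ← RingHom.map_det, ← monomial_sum_one, mul_comm, coeff_C_mul,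
      coeff_monomial]
    split_ifs with hs
    · have : (Matrix.of fun i j => (a i j : K)).det = 0 := by
        rw [← Matrix.exists_vecMul_eq_zero_iff]
        refine ⟨fun _ => 1, ?_, ?_⟩
        · intro h0
          exact one_ne_zero (congrFun h0 ⟨0, hm⟩)
        · funext j
          have := hd j
          rw [← hs, Finsupp.finset_sum_apply] at this
          simpa [Matrix.vecMul, dotProduct] using this
      rw [this, zero_mul]
    · rw [mul_zero]
  exact DFunLike.congr_fun H g

/-- The multilinear flux functional. -/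
noncomputable def Lm (d : Fin m →₀ ℕ) :
    MultilinearMap K (fun _ : Fin (m + 1) => MvPolynomial (Fin m) K) K :=
  MultilinearMap.uncurryRight (M := fun _ : Fin (m + 1) => MvPolynomial (Fin m) K)
    (((LinearMap.mul K (MvPolynomial (Fin m) K)).compr₂ (lcoeff K d)).compMultilinearMap J)

theorem Lm_ap (d : Fin m →₀ ℕ) (F : Fin (m + 1) → MvPolynomial (Fin m) K) :
    Lm d F = coeff d (J (fun i => F i.castSucc) * F (Fin.last m)) := rfl

theorem Lm_last (d : Fin m →₀ ℕ) (hd : ∀ j, (d j : K) = 0) (hm : 2 ≤ m)
    (F : Fin (m + 1) → MvPolynomial (Fin m) K) (i : Fin m)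
    (h : F i.castSucc = F (Fin.last m)) : Lm d F = 0 := by
  haveI : Nontrivial (Fin m) := Fin.nontrivial_iff_two_le.2 hm
  obtain ⟨k, hk⟩ := exists_ne i
  rw [Lm_ap, ← h, mul_comm]
  have := J_key (fun i => F i.castSucc) i k hk.symm
  rw [this]
  exact coeff_J d hd (by omega) _

/-- The alternating flux functional. -/
noncomputable def La (d : Fin m →₀ ℕ) (hd : ∀ j, (d j : K) = 0) (hm : 2 ≤ m) :
    (MvPolynomial (Fin m) K) [⋀^Fin (m + 1)]→ₗ[K] K :=
  { Lm d with
    map_eq_zero_of_eq' := fun F i j h hij => by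
      change Lm d F = 0
      induction i using Fin.lastCases with
      | last =>
        induction j using Fin.lastCases with
        | last => exact absurd rfl hij
        | cast j => exact Lm_last d hd hm F j h.symm
      | cast i =>
        induction j using Fin.lastCases with
        | last => exact Lm_last d hd hm F i h
        | cast j =>
          rw [Lm_ap, J_ap, Matrix.det_zero_of_row_eq (i := i) (j := j)
            (fun e => hij (by rw [e])) (by funext b; simp [h])]
          simp }

theorem Lm_lin (d : Fin m →₀ ℕ) (hd : ∀ j, (d j : K) = 0) (hm : 2 ≤ m)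
    (F : Fin (m + 1) → MvPolynomial (Fin m) K) (A : Matrix (Fin (m + 1)) (Fin (m + 1)) K) :
    Lm d (fun i => ∑ j, A i j • F j) = A.det * Lm d F := by
  have h := ((La d hd hm).compLinearMap (Fintype.linearCombination K F)).eq_smul_basis_det
    (Pi.basisFun K (Fin (m + 1)))
  have h2 := DFunLike.congr_fun h (fun i => A i)
  rw [Pi.basisFun_det] at h2
  have h3 : ((La d hd hm).compLinearMap (Fintype.linearCombination K F))
      (Pi.basisFun K (Fin (m + 1))) = Lm d F := by
    change Lm d _ = Lm d F
    congr 1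
    funext i
    simp
  rw [h3] at h2
  have h4 : ((La d hd hm).compLinearMap (Fintype.linearCombination K F)) (fun i => A i) =
      Lm d (fun i => ∑ j, A i j • F j) := rfl
  rw [← h4, h2, mul_comm]
  rfl

theorem Lm_const (d : Fin m →₀ ℕ) (hd : ∀ j, (d j : K) = 0) (hm : 2 ≤ m)
    (F : Fin (m + 1) → MvPolynomial (Fin m) K) (b : Fin (m + 1) → K) :
    Lm d (fun i => F i + C (b i)) = Lm d F := by
  rw [Lm_ap, Lm_ap, J_ap, J_ap]
  simp only [th_C]
  rw [mul_add, coeff_add, ← J_ap, mul_comm _ (C _), coeff_C_mul, coeff_J d hd (by omega)]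
  simp

end aux

section shift

variable {K : Type} [Field K] {m : ℕ}

/-- The embedding of the algebra on the first `m` generators. -/
noncomputable def emb : FreeAlgebra K (Fin m) →ₐ[K] FreeAlgebra K (Fin (m + 1)) :=
  FreeAlgebra.lift K fun i => FreeAlgebra.ι K i.castSucc

/-- `x_last ↦ x_last + w`. -/
noncomputable def sh (w : FreeAlgebra K (Fin m)) :
    FreeAlgebra K (Fin (m + 1)) →ₐ[K] FreeAlgebra K (Fin (m + 1)) :=
  FreeAlgebra.lift K fun i => Fin.lastCases (FreeAlgebra.ι K (Fin.last m) + emb w)
    (fun j => FreeAlgebra.ι K j.castSucc) i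

theorem sh_last (w : FreeAlgebra K (Fin m)) :
    sh w (FreeAlgebra.ι K (Fin.last m)) = FreeAlgebra.ι K (Fin.last m) + emb w := by
  simp [sh]

theorem sh_cast (w : FreeAlgebra K (Fin m)) (j : Fin m) :
    sh w (FreeAlgebra.ι K j.castSucc) = FreeAlgebra.ι K j.castSucc := by
  simp [sh]

theorem sh_emb (w u : FreeAlgebra K (Fin m)) : sh w (emb u) = emb u := by
  have : (sh w).comp emb = emb := by
    ext j
    simp [emb, sh_cast]
  exact DFunLike.congr_fun this u

theorem sh_comp (w u : FreeAlgebra K (Fin m)) (h : w + u = 0) :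
    (sh w).comp (sh u) = AlgHom.id K _ := by
  ext i
  induction i using Fin.lastCases with
  | last =>
    simp only [Function.comp_apply, AlgHom.coe_comp, sh_last, map_add, sh_emb, AlgHom.coe_id, id]
    rw [add_assoc, ← map_add, h, map_zero, add_zero]
  | cast j => simp [sh_cast]

/-- The triangular automorphism `x_last ↦ x_last + w`. -/
noncomputable def shE (w : FreeAlgebra K (Fin m)) :
    FreeAlgebra K (Fin (m + 1)) ≃ₐ[K] FreeAlgebra K (Fin (m + 1)) :=
  AlgEquiv.ofAlgHom (sh w) (sh (-w)) (sh_comp _ _ (by simp)) (sh_comp _ _ (by simp))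

theorem shE_ap (w : FreeAlgebra K (Fin m)) (u : FreeAlgebra K (Fin (m + 1))) :
    shE w u = sh w u := rfl

/-- The subgroup preserving vanishing of the flux. -/
def S (d : Fin m →₀ ℕ) :
    Subgroup (FreeAlgebra K (Fin (m + 1)) ≃ₐ[K] FreeAlgebra K (Fin (m + 1))) where
  carrier := {γ | ∀ ψ : FreeAlgebra K (Fin (m + 1)) →ₐ[K] MvPolynomial (Fin m) K,
    Lm d (fun i => ψ (γ (FreeAlgebra.ι K i))) = 0 ↔ Lm d (fun i => ψ (FreeAlgebra.ι K i)) = 0}
  one_mem' := fun _ => Iff.rfl
  mul_mem' := fun {a b} ha hb ψ => (hb (ψ.comp a.toAlgHom)).trans (ha ψ)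
  inv_mem' := fun {a} ha ψ => by
    have := ha (ψ.comp (a⁻¹).toAlgHom)
    have e : ∀ u, (ψ.comp (a⁻¹).toAlgHom) (a u) = ψ u := fun u => by
      change ψ (a.symm (a u)) = ψ u
      rw [a.symm_apply_apply]
    simp only [e] at this
    exact this.symm

end shift

/-- Over every field of positive characteristic and for every `n = m + 4 ≥ 4`, the affine
automorphisms together with `σ : x_n ↦ x_n + x_1 x_2` do not generate
`Aut K⟨x_1, …, x_n⟩`. -/
theorem result (K : Type) [Field K] (p : ℕ) (hp : p.Prime) [CharP K p] (m : ℕ) :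
    ∃ σ : FreeAlgebra K (Fin (m + 4)) ≃ₐ[K] FreeAlgebra K (Fin (m + 4)),
      σ (FreeAlgebra.ι K (Fin.last (m + 3))) =
        FreeAlgebra.ι K (Fin.last (m + 3)) + FreeAlgebra.ι K 0 * FreeAlgebra.ι K 1 ∧
      (∀ i, i ≠ Fin.last (m + 3) → σ (FreeAlgebra.ι K i) = FreeAlgebra.ι K i) ∧
      Subgroup.closure ({φ | IsAffine φ} ∪ {σ}) ≠ ⊤ := by
  let d : Fin (m + 3) →₀ ℕ := Finsupp.equivFunOnFinite.symm fun _ => p
  have hd : ∀ j, (d j : K) = 0 := fun j => by simp [d]
  refine ⟨shE (FreeAlgebra.ι K 0 * FreeAlgebra.ι K 1), ?_, ?_, ?_⟩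
  · rw [shE_ap, sh_last]
    simp [emb]
  · intro i hi
    induction i using Fin.lastCases with
    | last => exact absurd rfl hi
    | cast j => rw [shE_ap, sh_cast]
  · intro htop
    have hle : Subgroup.closure ({φ | IsAffine φ} ∪
        {shE (K := K) (m := m + 3) (FreeAlgebra.ι K 0 * FreeAlgebra.ι K 1)}) ≤ S d := by
      rw [Subgroup.closure_le]
      rintro γ (⟨A, b, hA, h⟩ | h)
      · intro ψ
        simp only [h, map_add, map_sum, map_smul, AlgHom.commutes, algebraMap_eq]
        rw [Lm_const d hd (by omega), Lm_lin d hd (by omega), mul_eq_zero]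
        have : A.det ≠ 0 := ((Matrix.isUnit_iff_isUnit_det A).1 hA).ne_zero
        simp [this]
      · rw [Set.mem_singleton_iff] at h
        subst h
        intro ψ
        rw [Lm_ap, Lm_ap]
        simp only [shE_ap, sh_cast, sh_last, map_add, mul_add, coeff_add]
        set g : Fin (m + 3) → MvPolynomial (Fin (m + 3)) K :=
          fun i => ψ (FreeAlgebra.ι K i.castSucc) with hg
        have e : ψ (emb (FreeAlgebra.ι K 0 * FreeAlgebra.ι K 1)) = g 0 * g 1 := by
          simp [emb, hg]
        have h02 : (0 : Fin (m + 3)) ≠ 2 := by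
          intro h; have := congrArg Fin.val h; simp at this
          rw [Nat.mod_eq_of_lt (by omega)] at this; omega
        have h12 : (1 : Fin (m + 3)) ≠ 2 := by
          intro h; have := congrArg Fin.val h; simp at this
          rw [Nat.mod_eq_of_lt (by omega)] at this; omega
        have e2 : coeff d (J g * (g 0 * g 1)) = 0 := by
          have k1 := J_key g 1 2 h12
          have k2 := J_key (Function.update g 2 (g 1 * g 2)) 0 2 h02
          rw [Function.update_of_ne h02] at k2
          have : J g * (g 0 * g 1) = g 0 * (g 1 * J g) := by ring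
          rw [this, k1, k2]
          exact coeff_J d hd (by omega) _
        rw [e, e2, add_zero]
    let w : FreeAlgebra K (Fin (m + 3)) := (List.ofFn fun j => FreeAlgebra.ι K j ^ (p - 1)).prod
    have hτ : shE w ∈ S d := hle (htop ▸ Subgroup.mem_top _)
    let ψ : FreeAlgebra K (Fin (m + 4)) →ₐ[K] MvPolynomial (Fin (m + 3)) K :=
      FreeAlgebra.lift K fun i => Fin.lastCases (0 : MvPolynomial (Fin (m + 3)) K) (fun j => X j) i
    have ψl : ψ (FreeAlgebra.ι K (Fin.last (m + 3))) = 0 := by simp [ψ]
    have ψc : ∀ j : Fin (m + 3), ψ (FreeAlgebra.ι K j.castSucc) = X j := fun j => by simp [ψ]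
    have h1 := (hτ ψ).2 (by rw [Lm_ap, ψl]; simp)
    rw [Lm_ap] at h1
    simp only [shE_ap, sh_cast, sh_last, map_add, ψl, ψc, zero_add] at h1
    have e1 : ψ (emb w) = ∏ j, X j ^ (p - 1) := by
      rw [← List.prod_ofFn]
      simp only [w, map_list_prod, List.map_ofFn]
      congr 2
      funext j
      simp [emb, ψc]
    have e2 : J (fun j : Fin (m + 3) => (X j : MvPolynomial (Fin (m + 3)) K)) = ∏ j, X j := by
      rw [J_ap, ← Matrix.det_diagonal]
      congr 1
      ext1 i j
      by_cases hij : i = j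
      · subst hij; simp [th_ap]
      · simp [th_ap, pderiv_X, hij, Ne.symm hij]
    rw [e1, e2, ← Finset.prod_mul_distrib] at h1
    have e3 : (∏ j : Fin (m + 3), (X j : MvPolynomial (Fin (m + 3)) K) * X j ^ (p - 1)) =
        monomial d 1 := by
      rw [monomial_eq, map_one, one_mul, Finsupp.prod_fintype _ _ (by simp)]
      refine Finset.prod_congr rfl fun j _ => ?_
      rw [← pow_succ']
      congr 1
      have := hp.pos
      simp [d]
      omega
    rw [e3, coeff_monomial, if_pos rfl] at h1
    exact one_ne_zero h1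

end Pool.Agent.Results.MP_119ce6_al.CharP
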